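import Mathlib
import Pool.Agent.W842.KF.Stm

set_option autoImplicit false

/-! Two phases (statement `S_EDGE` of `Pool.Agent.W842.KF.Stm`). -/

namespace Pool.Agent.W319.KF

open Finset Pool.Agent.W842.KF

theorem block {V : Type} {q o b m x : ℕ} (hb : 1 ≤ b) (hx : inT o b m x)
    (y : Fin q → V → V → ℕ) (v u : V) (h : alv o b m m y x v u = ∅) :
    ∃ α, α ≤ x ∧ x < α + b ∧ ∀ i, ¬ (α ≤ y i v u ∧ y i v u < α + b) := by
  obtain ⟨h1, h2⟩ := hx
  have hbk : bk o b x * b ≤ x - o := Nat.div_mul_le_self _ _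
  have hbk' : x - o < bk o b x * b + b := by
    have := Nat.lt_div_mul_add (a := x - o) (b := b) (by omega)
    exact this
  have hlt : bk o b x < 2 ^ m := by
    unfold bk
    rw [Nat.div_lt_iff_lt_mul (by omega)]
    omega
  have hle : bk o b x * b + b ≤ 2 ^ m * b := by
    have : (bk o b x + 1) * b ≤ 2 ^ m * b := Nat.mul_le_mul_right _ hlt
    nlinarith
  refine ⟨o + bk o b x * b, by omega, by omega, fun i hi => ?_⟩
  obtain ⟨hi1, hi2⟩ := hi
  have hbky : bk o b (y i v u) = bk o b x := by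
    show (y i v u - o) / b = bk o b x
    apply Nat.div_eq_of_lt_le
    · omega
    · rw [Nat.succ_mul]; omega
  have hin : i ∈ alv o b m m y x v u := by
    rw [mem_alv]
    refine ⟨⟨h1, h2⟩, ⟨by omega, by omega⟩, ?_⟩
    rw [hbky]
  rw [h] at hin
  exact absurd hin (Finset.notMem_empty i)

theorem card_le {V : Type} [Fintype V] [DecidableEq V] {H H' : SimpleGraph V} (hle : H ≤ H')
    (v : V) (f : V → ℕ) (X : ℝ) (hX : ∑ u ∈ nb H' v, (f u : ℝ) ≤ X) :
    (((nb H v).filter fun u => f u ≠ 0).card : ℝ) ≤ X := by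
  refine le_trans ?_ hX
  have h1 : (((nb H v).filter fun u => f u ≠ 0).card : ℝ) ≤ ∑ u ∈ nb H v, (f u : ℝ) := by
    rw [Finset.card_filter]
    push_cast
    refine Finset.sum_le_sum fun u _ => ?_
    split_ifs with h
    · exact_mod_cast Nat.one_le_iff_ne_zero.2 h
    · positivity
  refine h1.trans (Finset.sum_le_sum_of_subset_of_nonneg ?_ fun u _ _ => by positivity)
  intro u hu
  rw [mem_nb] at hu ⊢
  exact hle hu

theorem nb_mono {V : Type} [Fintype V] {H H' : SimpleGraph V} (hle : H ≤ H') (v : V) :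
    (nb H v).card ≤ (nb H' v).card := by
  apply Finset.card_le_card
  intro u hu
  rw [mem_nb] at hu ⊢
  exact hle hu

theorem t_edge (hP : S_PHASE) : S_EDGE := by
  classical
  intro V _ Γ c K q d y hK hq hd hdK hc hdeg hcol
  set m := Nat.log 2 (K / d) with hm
  have hKd : K / d ≠ 0 := by
    have : 1 ≤ K / d := by
      rw [Nat.le_div_iff_mul_le (by omega)]; omega
    omega
  have hm1 : 2 ^ m * d ≤ K := by
    rw [← Nat.le_div_iff_mul_le (by omega)]
    exact Nat.pow_log_le_self 2 hKd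
  have hm2 : K < 2 ^ (m + 1) * d := by
    rw [← Nat.div_lt_iff_lt_mul (by omega)]
    exact Nat.lt_pow_succ_log_self (by norm_num) _
  have h2m : 1 ≤ 2 ^ m := Nat.one_le_two_pow
  set b := K / 2 ^ m with hb
  have hbd : d ≤ b := by
    rw [hb, Nat.le_div_iff_mul_le (by omega), mul_comm]; exact hm1
  have hb1 : 1 ≤ b := by omega
  have hbK : 2 ^ m * b ≤ K := Nat.mul_div_le K (2 ^ m)
  obtain ⟨R1, c1, hR1, hR1c, hcol1, hK1, hout1, hin1, hsum1⟩ :=
    hP V Γ c K q 0 b m y hK hq hb1 (by omega) hc hdeg hcol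
  set o := K - 2 ^ m * b with ho
  have ho1 : o < 2 ^ m := by
    have : o = K % 2 ^ m := by
      have h := Nat.div_add_mod K (2 ^ m)
      rw [← hb] at h
      rw [ho]
      exact Nat.sub_eq_of_eq_add (by rw [add_comm]; exact h.symm)
    rw [this]; exact Nat.mod_lt _ (by omega)
  have hdeg1 : ∀ v, (nb (Γ \ R1) v).card ≤ K := fun v => (nb_mono sdiff_le v).trans (hdeg v)
  obtain ⟨R2, c2, hR2, hR2c, hcol2, hK2, hout2, hin2, hsum2⟩ :=
    hP V (Γ \ R1) c1 K q o b m y hK hq hb1 (by omega) hcol1 hdeg1 hK1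
  have hsd : (Γ \ R1) \ R2 = Γ \ (R1 ⊔ R2) := sdiff_sdiff_left
  rw [hsd] at hcol2 hK2 hout2 hin2 hsum2
  have hlogK : (m : ℝ) * Real.log 2 ≤ Real.log K := by
    have h1 : (2 : ℝ) ^ m ≤ K := by
      have : 2 ^ m ≤ K := le_trans (Nat.le_mul_of_pos_right _ (by omega)) hm1
      exact_mod_cast this
    have h2 := Real.log_le_log (by positivity) h1
    rwa [Real.log_pow] at h2
  have hlog2 := Real.log_two_gt_d9
  have hm0 : (0 : ℝ) ≤ m := Nat.cast_nonneg m
  refine ⟨R1 ⊔ R2, c2, sup_le hR1 (hR2.trans sdiff_le), ?_, hcol2, hK2, ?_⟩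
  · intro v
    have h1 : (nb (R1 ⊔ R2) v).card ≤ 15 * m + 15 * m := by
      have h2 : nb (R1 ⊔ R2) v ⊆ nb R1 v ∪ nb R2 v := by
        intro u hu
        rw [mem_nb] at hu
        rw [Finset.mem_union, mem_nb, mem_nb]
        exact hu
      exact (Finset.card_le_card h2).trans ((Finset.card_union_le _ _).trans
        (add_le_add (hR1c v) (hR2c v)))
    have h2 : ((nb (R1 ⊔ R2) v).card : ℝ) ≤ 30 * m := by
      have : ((nb (R1 ⊔ R2) v).card : ℝ) ≤ ((15 * m + 15 * m : ℕ) : ℝ) := by exact_mod_cast h1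
      push_cast at this
      linarith
    nlinarith
  · intro v
    refine ⟨((nb (Γ \ (R1 ⊔ R2)) v).filter fun u => (alv 0 b m m y (c1 v u) v u).card ≠ 0) ∪
      ((nb (Γ \ (R1 ⊔ R2)) v).filter fun u => (alv o b m m y (c2 v u) v u).card ≠ 0), ?_, ?_⟩
    · have h1 := card_le (H := Γ \ (R1 ⊔ R2)) (H' := Γ \ R1)
        (sdiff_le_sdiff_left le_sup_left) v (fun u => (alv 0 b m m y (c1 v u) v u).card) _ (hsum1 v)
      have h2 := card_le (H := Γ \ (R1 ⊔ R2)) (H' := Γ \ (R1 ⊔ R2)) le_rfl v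
        (fun u => (alv o b m m y (c2 v u) v u).card) _ (hsum2 v)
      have h3 := Finset.card_union_le
        ((nb (Γ \ (R1 ⊔ R2)) v).filter fun u => (alv 0 b m m y (c1 v u) v u).card ≠ 0)
        ((nb (Γ \ (R1 ⊔ R2)) v).filter fun u => (alv o b m m y (c2 v u) v u).card ≠ 0)
      rw [← Nat.cast_le (α := ℝ)] at h3
      have h4 : 2 * ((q : ℝ) * K) / 2 ^ m ≤ 4 * (q * d) := by
        rw [div_le_iff₀ (by positivity)]
        have h5 : (K : ℝ) ≤ 2 ^ (m + 1) * d := by exact_mod_cast hm2.le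
        have h6 : (0 : ℝ) ≤ q := Nat.cast_nonneg q
        have h7 : (q : ℝ) * K ≤ q * (2 ^ (m + 1) * d) := mul_le_mul_of_nonneg_left h5 h6
        calc 2 * ((q : ℝ) * K) ≤ 2 * (q * (2 ^ (m + 1) * d)) := by linarith
          _ = 4 * (q * d) * 2 ^ m := by ring
      push_cast at h3
      linarith
    · intro u hu huB
      rw [Finset.mem_union, Finset.mem_filter, Finset.mem_filter] at huB
      push Not at huB
      obtain ⟨hB1, hB2⟩ := huB
      have ha1 := Finset.card_eq_zero.1 (hB1 hu)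
      have ha2 := Finset.card_eq_zero.1 (hB2 hu)
      rw [mem_nb] at hu
      by_cases h : inT o b m (c2 v u)
      · obtain ⟨α, g1, g2, g3⟩ := block hb1 h y v u ha2
        exact ⟨α, b, hbd, g1, g2, g3⟩
      · have h1 : ¬ inT o b m (c1 v u) := fun h' => h (hin2 v u hu h')
        have h2 := hout2 v u hu h1
        have h3 := hK2 v u hu
        have h4 : c2 v u < o := by
          by_contra hcon
          apply h
          exact ⟨by omega, by omega⟩
        have h5 : 2 ^ m ≤ 2 ^ m * b := Nat.le_mul_of_pos_right _ (by omega)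
        have h6 : inT 0 b m (c1 v u) := ⟨Nat.zero_le _, by omega⟩
        obtain ⟨α, g1, g2, g3⟩ := block hb1 h6 y v u ha1
        rw [h2]
        exact ⟨α, b, hbd, g1, g2, g3⟩

end Pool.Agent.W319.KF
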